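import Pool.Agent.TH222.RG.R5.Tys

set_option autoImplicit false
set_option maxRecDepth 100000

/-! Entries of the types 0 to 4. -/

namespace Pool.Agent.TH222.RG.R5

def E0 : List Ent := [⟨0, 1, 0xcba98, 0x9876543210⟩]
theorem ok0 : chkBT 5 6 tbl T0 E0 = true := by decide +kernel
def E1 : List Ent := [⟨3, 2, 0xa98432, 0x547698321000000098547632100000007698543210⟩,
  ⟨5, 2, 0xa98431, 0x327698541000000098327654100000007698325410⟩,
  ⟨6, 2, 0xa98430, 0x107698543200000098107654320000007698105432⟩,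
  ⟨7, 3, 0x9843, 0x76985432100000009876543210⟩,
  ⟨9, 2, 0xa98421, 0x325498761000000098325476100000005498327610⟩,
  ⟨10, 2, 0xa98420, 0x105498763200000098105476320000005498107632⟩,
  ⟨11, 3, 0x9842, 0x54987632100000009854763210⟩,
  ⟨12, 2, 0xa98410, 0x103298765400000098103276540000003298107654⟩,
  ⟨13, 3, 0x9841, 0x32987654100000009832765410⟩,
  ⟨14, 3, 0x9840, 0x10987654320000009810765432⟩,
  ⟨15, 4, 0x84, 0x9876543210⟩,
  ⟨17, 2, 0xa98321, 0x325476981000000076325498100000005476329810⟩,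
  ⟨18, 2, 0xa98320, 0x105476983200000076105498320000005476109832⟩,
  ⟨19, 3, 0x9832, 0x54769832100000007654983210⟩,
  ⟨20, 2, 0xa98310, 0x103276985400000076103298540000003276109854⟩,
  ⟨21, 3, 0x9831, 0x32769854100000007632985410⟩,
  ⟨22, 3, 0x9830, 0x10769854320000007610985432⟩,
  ⟨23, 4, 0x83, 0x7698543210⟩,
  ⟨24, 2, 0xa98210, 0x103254987600000054103298760000003254109876⟩,
  ⟨25, 3, 0x9821, 0x32549876100000005432987610⟩,
  ⟨26, 3, 0x9820, 0x10549876320000005410987632⟩,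
  ⟨27, 4, 0x82, 0x5498763210⟩,
  ⟨28, 3, 0x9810, 0x10329876540000003210987654⟩,
  ⟨29, 4, 0x81, 0x3298765410⟩,
  ⟨30, 4, 0x80, 0x1098765432⟩,
  ⟨31, 0, 0x0, 0x9876543210⟩]
theorem ok1 : chkBT 5 6 tbl T1 E1 = true := by decide +kernel
def E2 : List Ent := [⟨7, 1, 0x98543, 0x3210987654⟩,
  ⟨11, 1, 0x98542, 0x2003210987654⟩,
  ⟨13, 1, 0x98541, 0x1003210987654⟩,
  ⟨14, 1, 0x98540, 0x3210987654⟩,
  ⟨19, 1, 0x98532, 0x3210985476⟩,
  ⟨21, 1, 0x98531, 0x2003210985476⟩,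
  ⟨22, 1, 0x98530, 0x1003210985476⟩,
  ⟨25, 1, 0x98521, 0x2003210985476⟩,
  ⟨26, 1, 0x98520, 0x3210987654⟩,
  ⟨28, 1, 0x98510, 0x1003210985476⟩,
  ⟨35, 1, 0x98432, 0x1003210765498⟩,
  ⟨37, 1, 0x98431, 0x3210765498⟩,
  ⟨38, 1, 0x98430, 0x2003210765498⟩,
  ⟨41, 1, 0x98421, 0x1003210769854⟩,
  ⟨42, 1, 0x98420, 0x2003210765498⟩,
  ⟨44, 1, 0x98410, 0x3210769854⟩,
  ⟨49, 1, 0x98321, 0x3210547698⟩,
  ⟨50, 1, 0x98320, 0x1003210549876⟩,
  ⟨52, 1, 0x98310, 0x2003210547698⟩,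
  ⟨56, 1, 0x98210, 0x3210769854⟩]
theorem ok2 : chkBT 5 6 tbl T2 E2 = true := by decide +kernel
def E3 : List Ent := [⟨3, 1, 0xa9832, 0x5432109876⟩,
  ⟨5, 1, 0xa9831, 0x1005432109876⟩,
  ⟨6, 1, 0xa9830, 0x5432109876⟩,
  ⟨9, 1, 0xa9821, 0x5432107698⟩,
  ⟨10, 1, 0xa9820, 0x1005432107698⟩,
  ⟨12, 1, 0xa9810, 0x5432109876⟩]
theorem ok3 : chkBT 5 6 tbl T3 E3 = true := by decide +kernel
def E4 : List Ent := [⟨1, 1, 0xba981, 0x7654321098⟩,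
  ⟨2, 1, 0xba980, 0x7654321098⟩]
theorem ok4 : chkBT 5 6 tbl T4 E4 = true := by decide +kernel

end Pool.Agent.TH222.RG.R5
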