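import Pool.Agent.TH222.RG.Chk

set_option autoImplicit false

/-! The 5 boundary types. -/

namespace Pool.Agent.TH222.RG.R5

def T0 : BT := ⟨0, false, 1, 0x0, []⟩
def T1 : BT := ⟨5, true, 1, 0x9876543210, []⟩
def T2 : BT := ⟨6, false, 3, 0x98765454769800009876549854760000987654769854, []⟩
def T3 : BT := ⟨4, false, 2, 0x987676980000000098769876, []⟩
def T4 : BT := ⟨2, false, 1, 0x9898, []⟩
def B0 : List BT := [T0, T1, T2, T3, T4]
def BB : List (List BT) := [B0]

/-- the type with number i -/
def tbl (i : ℕ) : BT := (BB.getD (Nat.div i 16) []).getD (Nat.mod i 16) T0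

end Pool.Agent.TH222.RG.R5
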